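import Pool.Agent.CMG.Stmts

set_option autoImplicit false

namespace Pool.Agent.CMG.H53

theorem hom : HomStmt := by
  intro D _ x hx
  let f : ℤ →+ Additive D := (zmultiplesHom (Additive D)) (Additive.ofMul x)
  have hf : Function.Injective f := by
    rw [injective_iff_map_eq_zero]
    intro n hn
    by_contra h0
    have h1 : n • (Additive.ofMul x) = 0 := by simpa [f] using hn
    have h2 : x ^ n = 1 := by
      have h3 : Additive.ofMul (x ^ n) = 0 := by rw [ofMul_zpow]; exact h1
      exact h3
    have h4 : x ^ n.natAbs = 1 := by
      rcases Int.natAbs_eq n with h | h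
      · rw [h] at h2
        simpa using h2
      · rw [h] at h2
        simpa using h2
    exact hx n.natAbs (Int.natAbs_pos.2 h0) h4
  obtain ⟨h, hh⟩ := Module.Baer.extension_property_addMonoidHom (Module.Baer.of_divisible (A := ℝ)) f hf
    (Int.castAddHom ℝ)
  refine ⟨fun d => h (Additive.ofMul d), ?_, ?_⟩
  · intro a b
    show h (Additive.ofMul (a * b)) = _
    rw [ofMul_mul, map_add]
  · have := DFunLike.congr_fun hh (1 : ℤ)
    simpa [f] using this

end Pool.Agent.CMG.H53
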