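import Pool.Agent.CMG.Stmts

/-!
# KLE: a completely metrizable precompact group is compact

Every ultrafilter is Cauchy on both sides (precompactness), and a sequence which is Cauchy on both sides converges
(Klee's theorem, by Baire's theorem in the group itself).
-/

set_option autoImplicit false

open Set Topology Filter
open scoped Pointwise

namespace Pool.Agent.CMG.H53

theorem cau {H : Type} [Group H] [TopologicalSpace H] [IsTopologicalGroup H]
    (hp : ∀ U ∈ nhds (1 : H), ∃ F : Finset H, (⋃ g ∈ F, g • U) = Set.univ)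
    (𝒰 : Ultrafilter H) (V : Set H) (hV : V ∈ nhds (1 : H)) :
    ∃ A ∈ (𝒰 : Filter H), ∀ a ∈ A, ∀ b ∈ A, a⁻¹ * b ∈ V ∧ a * b⁻¹ ∈ V := by
  have hc : Tendsto (fun q : H × H => q.1⁻¹ * q.2) (nhds (1 : H) ×ˢ nhds (1 : H)) (nhds (1 : H)) := by
    have h1 : Continuous (fun q : H × H => q.1⁻¹ * q.2) := by fun_prop
    have h2 := h1.tendsto ((1 : H), (1 : H))
    rw [nhds_prod_eq] at h2
    simpa using h2
  obtain ⟨U, hU, hUV⟩ := Filter.mem_prod_same_iff.1 (hc hV)
  have hUV' : ∀ u ∈ U, ∀ v ∈ U, u⁻¹ * v ∈ V := fun u hu v hv => hUV (Set.mk_mem_prod hu hv)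
  obtain ⟨F, hF⟩ := hp U hU
  have h1 : ∃ g ∈ F, g • U ∈ 𝒰 := by
    have : (⋃ g ∈ (F : Set H), g • U) ∈ 𝒰 := by
      have h := hF
      have h2 : (⋃ g ∈ (F : Set H), g • U) = Set.univ := by
        simpa using h
      rw [h2]
      exact Filter.univ_mem
    exact (Ultrafilter.finite_biUnion_mem_iff F.finite_toSet).1 this
  have h2 : ∃ g ∈ F, {x : H | x⁻¹ ∈ g • U} ∈ 𝒰 := by
    have : (⋃ g ∈ (F : Set H), {x : H | x⁻¹ ∈ g • U}) ∈ 𝒰 := by
      have h2 : (⋃ g ∈ (F : Set H), {x : H | x⁻¹ ∈ g • U}) = Set.univ := by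
        apply Set.eq_univ_of_forall
        intro x
        have hx : x⁻¹ ∈ (⋃ g ∈ F, g • U) := by rw [hF]; trivial
        simp only [Set.mem_iUnion] at hx
        obtain ⟨g, hg, hgx⟩ := hx
        simp only [Set.mem_iUnion]
        exact ⟨g, hg, hgx⟩
      rw [h2]
      exact Filter.univ_mem
    exact (Ultrafilter.finite_biUnion_mem_iff F.finite_toSet).1 this
  obtain ⟨g, -, hg⟩ := h1
  obtain ⟨g', -, hg'⟩ := h2
  refine ⟨g • U ∩ {x : H | x⁻¹ ∈ g' • U}, Filter.inter_mem hg hg', ?_⟩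
  rintro a ⟨ha, ha'⟩ b ⟨hb, hb'⟩
  constructor
  · obtain ⟨u, hu, rfl⟩ := ha
    obtain ⟨v, hv, rfl⟩ := hb
    have : (g • u)⁻¹ * (g • v) = u⁻¹ * v := by simp [smul_eq_mul, mul_assoc]
    show (g • u)⁻¹ * (g • v) ∈ V
    rw [this]
    exact hUV' u hu v hv
  · obtain ⟨u, hu, hu'⟩ := ha'
    obtain ⟨v, hv, hv'⟩ := hb'
    have hu2 : a⁻¹ = g' * u := by rw [← hu']; rfl
    have hv2 : b⁻¹ = g' * v := by rw [← hv']; rfl
    have : a * b⁻¹ = u⁻¹ * v := by
      have ha2 : a = (g' * u)⁻¹ := by rw [← hu2, inv_inv]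
      rw [hv2, ha2]
      simp [mul_assoc]
    rw [this]
    exact hUV' u hu v hv

theorem klee {H : Type} [Group H] [TopologicalSpace H] [IsTopologicalGroup H]
    [TopologicalSpace.IsCompletelyMetrizableSpace H] (x : ℕ → H)
    (hx : ∀ V ∈ nhds (1 : H), ∃ N, ∀ n, N ≤ n → ∀ m, N ≤ m →
      (x n)⁻¹ * x m ∈ V ∧ x n * (x m)⁻¹ ∈ V) :
    ∃ z, Tendsto x atTop (nhds z) := by
  letI := TopologicalSpace.upgradeIsCompletelyMetrizable H
  set W : ℕ → Set H := fun k => ⋃₀ {O : Set H | IsOpen O ∧ ∃ N, ∀ n, N ≤ n → ∀ m, N ≤ m →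
    ∀ a ∈ O, ∀ b ∈ O, dist (x n * a) (x m * b) < 1 / ((k : ℝ) + 1)} with hW
  have hWo : ∀ k, IsOpen (W k) := fun k => isOpen_sUnion fun O hO => hO.1
  have hWd : ∀ k, Dense (W k) := by
    intro k
    rw [dense_iff_inter_open]
    rintro Q hQ ⟨y0, hy0⟩
    have hpos : (0 : ℝ) < 1 / ((k : ℝ) + 1) / 2 := by positivity
    have hT1 : {c : H | c * y0 ∈ Q} ∈ nhds (1 : H) := by
      have h1 : Continuous (fun c : H => c * y0) := by fun_prop
      apply (hQ.preimage h1).mem_nhds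
      simpa using hy0
    obtain ⟨N, hN⟩ := hx _ hT1
    set p := x N * y0 with hp
    have hc : Tendsto (fun q : H × H => q.1 * p * q.2) (nhds (1 : H) ×ˢ nhds (1 : H)) (nhds p) := by
      have h1 : Continuous (fun q : H × H => q.1 * p * q.2) := by fun_prop
      have h2 := h1.tendsto ((1 : H), (1 : H))
      rw [nhds_prod_eq] at h2
      simpa using h2
    obtain ⟨T, hT, hTp⟩ := Filter.mem_prod_same_iff.1 (hc (Metric.ball_mem_nhds p hpos))
    obtain ⟨M0, hM0⟩ := hx T hT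
    set M := max M0 N with hM
    set y := (x M)⁻¹ * p with hy
    refine ⟨y, ?_, ?_⟩
    · have := (hN M (le_max_right _ _) N le_rfl).1
      have h2 : (x M)⁻¹ * x N * y0 ∈ Q := this
      rw [hy, hp, ← mul_assoc]
      exact h2
    · refine Set.mem_sUnion.2 ⟨{z | y⁻¹ * z ∈ interior T}, ⟨?_, M, ?_⟩, ?_⟩
      · have h1 : Continuous (fun z : H => y⁻¹ * z) := by fun_prop
        exact isOpen_interior.preimage h1
      · have key : ∀ n, M ≤ n → ∀ a, y⁻¹ * a ∈ interior T →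
            dist (x n * a) p < 1 / ((k : ℝ) + 1) / 2 := by
          intro n hn a ha
          have h1 : x n * (x M)⁻¹ ∈ T :=
            (hM0 n (le_trans (le_max_left _ _) hn) M (le_max_left _ _)).2
          have h2 : x n * (x M)⁻¹ * p * (y⁻¹ * a) ∈ Metric.ball p (1 / ((k : ℝ) + 1) / 2) :=
            hTp (Set.mk_mem_prod h1 (interior_subset ha))
          have h3 : x n * (x M)⁻¹ * p * (y⁻¹ * a) = x n * a := by
            rw [hy]
            group
          rw [h3] at h2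
          exact h2
        intro n hn m hm a ha b hb
        calc dist (x n * a) (x m * b) ≤ dist (x n * a) p + dist (x m * b) p :=
              dist_triangle_right _ _ _
          _ < 1 / ((k : ℝ) + 1) / 2 + 1 / ((k : ℝ) + 1) / 2 :=
              add_lt_add (key n hn a ha) (key m hm b hb)
          _ = 1 / ((k : ℝ) + 1) := by ring
      · show y⁻¹ * y ∈ interior T
        rw [inv_mul_cancel]
        exact mem_interior_iff_mem_nhds.2 hT
  have hD : Dense (⋂ k, W k) := dense_iInter_of_isOpen hWo hWd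
  haveI : Nonempty H := ⟨1⟩
  obtain ⟨y, hy⟩ := hD.nonempty
  have hC : CauchySeq (fun n => x n * y) := by
    rw [Metric.cauchySeq_iff]
    intro ε hε
    obtain ⟨k, hk⟩ := exists_nat_one_div_lt hε
    obtain ⟨O, ⟨-, N, hN⟩, hyO⟩ := Set.mem_sUnion.1 (Set.mem_iInter.1 hy k)
    exact ⟨N, fun m hm n hn => (hN m hm n hn y hyO y hyO).trans hk⟩
  obtain ⟨z, hz⟩ := cauchySeq_tendsto_of_complete hC
  refine ⟨z * y⁻¹, ?_⟩
  have := hz.mul_const y⁻¹
  simpa [mul_assoc] using this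

theorem kle : KleStmt := by
  intro H _ _ _ _ hp
  rw [← isCompact_univ_iff, isCompact_iff_ultrafilter_le_nhds]
  intro 𝒰 _
  obtain ⟨V, hV⟩ := (nhds (1 : H)).exists_antitone_basis
  have hA : ∀ n, ∃ A ∈ (𝒰 : Filter H), ∀ a ∈ A, ∀ b ∈ A, a⁻¹ * b ∈ V n ∧ a * b⁻¹ ∈ V n :=
    fun n => cau hp 𝒰 (V n) (hV.mem n)
  choose A hAU hAV using hA
  have hB : ∀ n, (⋂ i ∈ Finset.range (n + 1), A i) ∈ (𝒰 : Filter H) := fun n =>
    (Filter.biInter_finset_mem _).2 fun i _ => hAU i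
  have hne : ∀ n, (⋂ i ∈ Finset.range (n + 1), A i).Nonempty := fun n =>
    Filter.nonempty_of_mem (hB n)
  choose x hxB using hne
  have hxA : ∀ N n, N ≤ n → x n ∈ A N := by
    intro N n h
    exact Set.mem_iInter₂.1 (hxB n) N (Finset.mem_range.2 (Nat.lt_succ_of_le h))
  obtain ⟨z, hz⟩ := klee x (by
    intro T hT
    obtain ⟨N, -, hN⟩ := hV.toHasBasis.mem_iff.1 hT
    exact ⟨N, fun n hn m hm => ⟨hN (hAV N _ (hxA N n hn) _ (hxA N m hm)).1,
      hN (hAV N _ (hxA N n hn) _ (hxA N m hm)).2⟩⟩)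
  refine ⟨z, Set.mem_univ z, ?_⟩
  intro Q hQ
  have hc : Tendsto (fun q : H × H => q.1 * q.2) (nhds z ×ˢ nhds (1 : H)) (nhds z) := by
    have h1 : Continuous (fun q : H × H => q.1 * q.2) := by fun_prop
    have h2 := h1.tendsto (z, (1 : H))
    rw [nhds_prod_eq] at h2
    simpa using h2
  obtain ⟨S, hS, T, hT, hST⟩ := Filter.mem_prod_iff.1 (hc hQ)
  obtain ⟨N, -, hN⟩ := hV.toHasBasis.mem_iff.1 hT
  obtain ⟨n, hnN, hnS⟩ := ((eventually_ge_atTop N).and (hz.eventually_mem hS)).exists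
  refine Filter.mem_of_superset (hAU N) ?_
  intro a ha
  have h1 : (x n)⁻¹ * a ∈ T := hN (hAV N _ (hxA N n hnN) _ ha).1
  have h2 : x n * ((x n)⁻¹ * a) ∈ Q := hST (Set.mk_mem_prod hnS h1)
  simpa using h2

end Pool.Agent.CMG.H53
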