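import Pool.Agent.CMG.Stmts

set_option autoImplicit false

open Topology

namespace Pool.Agent.CMG.H53

theorem opb (hchr : ChrStmt) (hsur : SurStmt) (hhom : HomStmt) : OpbStmt := by
  intro K _ _ _ _ _ hc χ hχ
  obtain ⟨h, hh, hh1⟩ := hhom (K →ₜ* Circle) χ (by
    intro n hn he
    obtain ⟨k, hk⟩ := hχ n hn
    have := DFunLike.congr_fun he k
    exact hk (by simpa using this))
  let e : ℝ → ↥(homs (K →ₜ* Circle)) := fun t => ⟨fun d => Circle.exp (t * h d), by
    intro a b
    show Circle.exp (t * h (a * b)) = Circle.exp (t * h a) * Circle.exp (t * h b)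
    rw [hh, mul_add, Circle.exp_add]⟩
  have hs : ∀ t, ∃ k : K, ∀ d : K →ₜ* Circle, (e t).1 d = d k := fun t => hsur K hc (e t)
  choose γ hγ using hs
  have sep : ∀ a b : K, (∀ d : K →ₜ* Circle, d a = d b) → a = b := by
    intro a b hab
    by_contra hne
    have h1 : a * b⁻¹ ≠ 1 := fun h => hne (mul_inv_eq_one.1 h)
    obtain ⟨d, hd⟩ := hchr K hc (a * b⁻¹) h1
    exact hd (by rw [map_mul, map_inv, hab d, mul_inv_cancel])
  let j : K → (K →ₜ* Circle) → Circle := fun k d => d k
  have hj : Continuous j := continuous_pi fun d => map_continuous d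
  have hji : Function.Injective j := fun a b hab => sep a b fun d => congr_fun hab d
  have hje : IsClosedEmbedding j := hj.isClosedEmbedding hji
  have hγc : Continuous γ := by
    rw [hje.isInducing.continuous_iff]
    have h2 : j ∘ γ = fun t d => Circle.exp (t * h d) := by
      funext t d
      exact (hγ t d).symm
    rw [h2]
    exact continuous_pi fun d => Circle.exp.continuous.comp (continuous_id.mul continuous_const)
  refine ⟨γ, hγc, ?_, 1, ?_⟩
  · intro s t
    apply sep
    intro d
    rw [map_mul, ← hγ, ← hγ, ← hγ]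
    show Circle.exp ((s + t) * h d) = Circle.exp (s * h d) * Circle.exp (t * h d)
    rw [add_mul, Circle.exp_add]
  · intro h1
    have h2 := hγ 1 χ
    rw [h1, map_one] at h2
    have h3 : Circle.exp (1 * h χ) = Circle.exp 0 := by
      rw [Circle.exp_zero]
      exact h2
    rw [Circle.exp_eq_exp] at h3
    obtain ⟨m, hm⟩ := h3
    rw [hh1] at hm
    have hpi := Real.pi_gt_three
    have hm0 : m ≠ 0 := by
      rintro rfl
      norm_num at hm
    have h4 : (1 : ℝ) ≤ |(m : ℝ)| := by
      exact_mod_cast Int.one_le_abs hm0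
    have h5 : (1 : ℝ) = |(m : ℝ)| * (2 * Real.pi) := by
      have h6 : (1 : ℝ) = (m : ℝ) * (2 * Real.pi) := by linarith
      calc (1 : ℝ) = |(1 : ℝ)| := by simp
        _ = |(m : ℝ) * (2 * Real.pi)| := by rw [← h6]
        _ = |(m : ℝ)| * (2 * Real.pi) := by
          rw [abs_mul, abs_of_pos (by positivity : (0 : ℝ) < 2 * Real.pi)]
    nlinarith

end Pool.Agent.CMG.H53
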